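import Pool.Agent.H87.SN.Targets

set_option autoImplicit false

namespace Pool.Agent.H96.SN

open Pool.Agent.H87.SN
open MeasureTheory Metric Set Filter Topology
open scoped ContDiff RealInnerProductSpace

/-- smoothness of the derivative -/
lemma cd_fderiv {E' F : Type*} [NormedAddCommGroup E'] [NormedSpace ℝ E'] [NormedAddCommGroup F]
    [NormedSpace ℝ F] {U : Set E'} {f : E' → F} (hU : IsOpen U) (hf : ContDiffOn ℝ ∞ f U) :
    ContDiffOn ℝ ∞ (fderiv ℝ f) U :=
  hf.fderiv_of_isOpen hU (by norm_num)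

lemma hd_of {E' F : Type*} [NormedAddCommGroup E'] [NormedSpace ℝ E'] [NormedAddCommGroup F]
    [NormedSpace ℝ F] {U : Set E'} {f : E' → F} (hU : IsOpen U) (hf : ContDiffOn ℝ ∞ f U) {x : E'}
    (hx : x ∈ U) : HasFDerivAt f (fderiv ℝ f x) x :=
  ((hf.contDiffAt (hU.mem_nhds hx)).differentiableAt (by norm_num)).hasFDerivAt

/-- derivative of an evaluated family of linear maps -/
lemma fd_eval {E' G F : Type*} [NormedAddCommGroup E'] [NormedSpace ℝ E'] [NormedAddCommGroup G]
    [NormedSpace ℝ G] [NormedAddCommGroup F] [NormedSpace ℝ F] {g : E' → G →L[ℝ] F}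
    {g' : E' →L[ℝ] G →L[ℝ] F} {x : E'} (hg : HasFDerivAt g g' x) (v : G) :
    HasFDerivAt (fun y => g y v) (g'.flip v) x := by
  have h := hg.clm_apply (hasFDerivAt_const v x)
  refine h.congr_fderiv ?_
  ext w
  simp

lemma two_le_inf' : minSmoothness ℝ 2 ≤ ∞ := by
  simp only [minSmoothness_of_isRCLikeNormedField]
  exact WithTop.coe_le_coe.mpr le_top

section

variable {n : ℕ} {F : Type*} [NormedAddCommGroup F] [InnerProductSpace ℝ F]

lemma fd_normsq {U : Set (E n)} {w : E n → F} (hU : IsOpen U) (hw : ContDiffOn ℝ ∞ w U) {x : E n}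
    (hx : x ∈ U) (v : E n) :
    fderiv ℝ (fun y => ‖w y‖ ^ 2) x v = 2 * ⟪w x, fderiv ℝ w x v⟫ := by
  have h := (hd_of hU hw hx).norm_sq
  rw [h.fderiv]
  simp

lemma lap_normsq {U : Set (E n)} {w : E n → F} (hU : IsOpen U) (hw : ContDiffOn ℝ ∞ w U) {x : E n}
    (hx : x ∈ U) :
    lap (fun y => ‖w y‖ ^ 2) x = 2 * (nsq (fderiv ℝ w x) + ⟪w x, lap w x⟫) := by
  have hw2 := cd_fderiv hU hw
  have hN : ContDiffOn ℝ ∞ (fun y => ‖w y‖ ^ 2) U := hw.norm_sq ℝ
  have hN2 := cd_fderiv hU hN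
  have key : ∀ a b : E n, fderiv ℝ (fderiv ℝ (fun y => ‖w y‖ ^ 2)) x a b =
      2 * (⟪fderiv ℝ w x a, fderiv ℝ w x b⟫ + ⟪w x, fderiv ℝ (fderiv ℝ w) x a b⟫) := by
    intro a b
    have h1 := fd_eval (hd_of hU hN2 hx) b
    have h2 : (fun y => fderiv ℝ (fun y => ‖w y‖ ^ 2) y b) =ᶠ[𝓝 x]
        (fun y => 2 * ⟪w y, fderiv ℝ w y b⟫) := by
      filter_upwards [hU.mem_nhds hx] with y hy
      exact fd_normsq hU hw hy b
    have h3 : HasFDerivAt (fun y => 2 * ⟪w y, fderiv ℝ w y b⟫)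
        ((fderiv ℝ (fderiv ℝ (fun y => ‖w y‖ ^ 2)) x).flip b) x :=
      h1.congr_of_eventuallyEq h2.symm
    have h4 := ((hd_of hU hw hx).inner ℝ (fd_eval (hd_of hU hw2 hx) b)).const_mul 2
    have h5 := h3.unique h4
    have h6 := congrArg (fun L => L a) h5
    simp only [ContinuousLinearMap.flip_apply, smul_apply,
      ContinuousLinearMap.comp_apply, ContinuousLinearMap.prod_apply, smul_eq_mul] at h6
    rw [h6]
    simp only [fderivInnerCLM_apply]
    ring
  unfold lap nsq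
  simp_rw [key]
  rw [← Finset.mul_sum, Finset.sum_add_distrib, inner_sum]
  simp_rw [real_inner_self_eq_norm_sq]

end

lemma Jm_zero {d : ℕ} : Jm d (bv 0) = bv 1 := by
  ext i
  unfold Jm bv
  simp only [LinearMap.coe_toContinuousLinearMap', LinearMap.coe_mk, AddHom.coe_mk]
  by_cases h0 : (i : ℕ) = 0
  · have : i = 0 := Fin.ext h0
    subst this
    simp
  · by_cases h1 : (i : ℕ) = 1
    · have : i = 1 := Fin.ext (by simpa using h1)
      subst this
      simp
    · have e1 : i ≠ 1 := fun h => h1 (by rw [h]; simp)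
      simp [h0, h1, e1]

lemma Jm_one {d : ℕ} : Jm d (bv 1) = -bv 0 := by
  ext i
  unfold Jm bv
  simp only [LinearMap.coe_toContinuousLinearMap', LinearMap.coe_mk, AddHom.coe_mk]
  by_cases h0 : (i : ℕ) = 0
  · have : i = 0 := Fin.ext h0
    subst this
    simp
  · have e0 : i ≠ 0 := fun h => h0 (by rw [h]; simp)
    by_cases h1 : (i : ℕ) = 1
    · have : i = 1 := Fin.ext (by simpa using h1)
      subst this
      simp
    · simp [h0, h1, e0]

lemma Jm_succ {d : ℕ} (j : Fin d) : Jm d (bv j.succ.succ) = 0 := by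
  ext i
  unfold Jm bv
  simp only [LinearMap.coe_toContinuousLinearMap', LinearMap.coe_mk, AddHom.coe_mk]
  have e0 : (0 : Fin (d + 2)) ≠ j.succ.succ := by
    intro h
    have := congrArg Fin.val h
    simp at this
  have e1 : (1 : Fin (d + 2)) ≠ j.succ.succ := by
    intro h
    have := congrArg Fin.val h
    simp at this
  simp [e0, e1]

theorem pf_BO2 : T_BO2 := by
  intro d m U u hU hu hO
  have h1 := cd_fderiv hU hu
  have h2 := cd_fderiv hU h1
  have hJ : ContDiffOn ℝ ∞ (fun x : E (d + 2) => Jm d x) U := (Jm d).contDiff.contDiffOn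
  have huth : ContDiffOn ℝ ∞ (uth u) U := h1.clm_apply hJ
  refine ⟨huth, fun x hx => ⟨?_, fun v => fd_normsq hU huth hx v⟩⟩
  rw [lap_normsq hU huth hx]
  -- derivatives of `u`
  set D1 := fderiv ℝ u with hD1
  set D2 := fderiv ℝ D1 with hD2
  set D3 := fderiv ℝ D2 with hD3
  have d1 : ∀ y ∈ U, HasFDerivAt D1 (D2 y) y := fun y hy => hd_of hU h1 hy
  have d2 : ∀ y ∈ U, HasFDerivAt D2 (D3 y) y := fun y hy => hd_of hU h2 hy
  have hJd : ∀ y : E (d + 2), HasFDerivAt (fun x : E (d + 2) => Jm d x) (Jm d) y :=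
    fun y => (Jm d).hasFDerivAt
  -- first derivative of `uth`
  have hth1 : ∀ y ∈ U, ∀ v, fderiv ℝ (uth u) y v = D1 y (Jm d v) + D2 y v (Jm d y) := by
    intro y hy v
    have h := (d1 y hy).clm_apply (hJd y)
    have e : fderiv ℝ (uth u) y = (D1 y).comp (Jm d) + (D2 y).flip (Jm d y) := h.fderiv
    rw [e]
    simp
  have huth1 := cd_fderiv hU huth
  -- second derivative of `uth`
  have hth2 : ∀ w v, fderiv ℝ (fderiv ℝ (uth u)) x w v =
      D2 x w (Jm d v) + (D3 x w v (Jm d x) + D2 x v (Jm d w)) := by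
    intro w v
    have e1 := fd_eval (hd_of hU huth1 hx) v
    have e2 : (fun y => fderiv ℝ (uth u) y v) =ᶠ[𝓝 x]
        (fun y => D1 y (Jm d v) + D2 y v (Jm d y)) := by
      filter_upwards [hU.mem_nhds hx] with y hy
      exact hth1 y hy v
    have e3 := e1.congr_of_eventuallyEq e2.symm
    have e4 := (fd_eval (d1 x hx) (Jm d v)).add ((fd_eval (d2 x hx) v).clm_apply (hJd x))
    have e5 := congrArg (fun L => L w) (e3.unique e4)
    simp only [ContinuousLinearMap.flip_apply, add_apply,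
      ContinuousLinearMap.comp_apply] at e5
    rw [e5]
    abel
  -- symmetries
  have hsym2 : ∀ y ∈ U, ∀ v w, D2 y v w = D2 y w v := by
    intro y hy v w
    have h := (hu.contDiffAt (hU.mem_nhds hy)).isSymmSndFDerivAt two_le_inf'
    exact h v w
  have hsym3a : ∀ v w z, D3 x v w z = D3 x w v z := by
    intro v w z
    have h := (h1.contDiffAt (hU.mem_nhds hx)).isSymmSndFDerivAt two_le_inf'
    rw [show D3 x v w = D3 x w v from h v w]
  have hsym3b : ∀ v w z, D3 x v w z = D3 x v z w := by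
    intro v w z
    have e1 := fd_eval (fd_eval (d2 x hx) w) z
    have e2 := fd_eval (fd_eval (d2 x hx) z) w
    have e3 : (fun y => D2 y w z) =ᶠ[𝓝 x] (fun y => D2 y z w) := by
      filter_upwards [hU.mem_nhds hx] with y hy
      exact hsym2 y hy w z
    have e4 := congrArg (fun L => L v) ((e1.congr_of_eventuallyEq e3.symm).unique e2)
    simpa using e4
  -- derivative of the Laplacian
  have hlap : HasFDerivAt (lap u) (∑ i : Fin (d + 2), ((D3 x).flip (bv i)).flip (bv i)) x := by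
    have h := HasFDerivAt.fun_sum (u := Finset.univ)
      (A := fun (i : Fin (d + 2)) (y : E (d + 2)) => D2 y (bv i) (bv i))
      (A' := fun i => ((D3 x).flip (bv i)).flip (bv i))
      (fun i _ => fd_eval (fd_eval (d2 x hx) (bv i)) (bv i))
    exact h
  -- Laplacian of `uth`
  have hsum0 : ∑ i : Fin (d + 2), D2 x (bv i) (Jm d (bv i)) = 0 := by
    rw [Fin.sum_univ_succ, Fin.sum_univ_succ]
    have e0 : ∑ i : Fin d, D2 x (bv i.succ.succ) (Jm d (bv i.succ.succ)) = 0 := by
      apply Finset.sum_eq_zero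
      intro i _
      rw [Jm_succ, map_zero]
    rw [e0, add_zero]
    have e1 : (Fin.succ 0 : Fin (d + 2)) = 1 := rfl
    rw [e1, Jm_zero, Jm_one, map_neg, hsym2 x hx (bv 0) (bv 1)]
    abel
  have hlapth : lap (uth u) x = ∑ i : Fin (d + 2), D3 x (Jm d x) (bv i) (bv i) := by
    unfold lap
    have e : ∀ i : Fin (d + 2), fderiv ℝ (fderiv ℝ (uth u)) x (bv i) (bv i) =
        D2 x (bv i) (Jm d (bv i)) + D3 x (Jm d x) (bv i) (bv i) + D2 x (bv i) (Jm d (bv i)) := by
      intro i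
      rw [hth2, hsym3b (bv i) (bv i) (Jm d x), hsym3a (bv i) (Jm d x) (bv i)]
      abel
    simp_rw [e]
    rw [Finset.sum_add_distrib, Finset.sum_add_distrib, hsum0]
    simp
  -- the orthogonality relation differentiated
  have horth : ⟪uth u x, lap (uth u) x⟫ + ⟪fderiv ℝ (uth u) x (Jm d x), lap u x⟫ = 0 := by
    have e1 := (hd_of hU huth hx).inner ℝ hlap
    have e2 : (fun y => ⟪uth u y, lap u y⟫) =ᶠ[𝓝 x] (fun _ => (0:ℝ)) := by
      filter_upwards [hU.mem_nhds hx] with y hy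
      exact hO y hy (Jm d y)
    have e3 : HasFDerivAt (fun y => ⟪uth u y, lap u y⟫) (0 : E (d + 2) →L[ℝ] ℝ) x :=
      (hasFDerivAt_const (0:ℝ) x).congr_of_eventuallyEq e2
    have e4 := congrArg (fun L : E (d + 2) →L[ℝ] ℝ => L (Jm d x)) (e1.unique e3)
    simp only [ContinuousLinearMap.comp_apply, ContinuousLinearMap.prod_apply,
      fderivInnerCLM_apply, zero_apply] at e4
    rw [hlapth]
    have e5 : (∑ i : Fin (d + 2), ((D3 x).flip (bv i)).flip (bv i)) (Jm d x) =
        ∑ i : Fin (d + 2), D3 x (Jm d x) (bv i) (bv i) := by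
      rw [sum_apply]
      rfl
    rw [e5] at e4
    exact e4
  have huthth : uthth u x = fderiv ℝ (uth u) x (Jm d x) := rfl
  rw [huthth]
  linarith

end Pool.Agent.H96.SN
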