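import Pool.Agent.H87.SN.Targets

set_option autoImplicit false

namespace Pool.Agent.H96.SN

open Pool.Agent.H87.SN
open MeasureTheory Metric Set Filter Topology
open scoped ContDiff RealInnerProductSpace

lemma sum_sq_le {d : ℕ} (L : E d →L[ℝ] ℝ) : ∑ i : Fin d, (L (bv i)) ^ 2 ≤ ‖L‖ ^ 2 := by
  set w := (InnerProductSpace.toDual ℝ (E d)).symm L with hw
  have h1 : ∀ i, L (bv i) = w i := by
    intro i
    have h2 := InnerProductSpace.toDual_symm_apply (𝕜 := ℝ) (y := L) (x := bv i)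
    rw [← h2, ← hw]
    unfold bv
    rw [EuclideanSpace.inner_single_right]
    simp
  have h3 : ‖w‖ = ‖L‖ := by rw [hw]; simp
  rw [← h3, EuclideanSpace.norm_sq_eq]
  apply le_of_eq
  apply Finset.sum_congr rfl
  intro i _
  rw [h1]; simp

section

variable {d : ℕ} {S : E d → ℝ}

lemma g_hasFDerivAt (hS : ContDiff ℝ 1 S) (p : ℝ × E d) :
    HasFDerivAt (fun p : ℝ × E d => p.1 + S p.2)
      (ContinuousLinearMap.fst ℝ ℝ (E d) + (fderiv ℝ S p.2).comp (ContinuousLinearMap.snd ℝ ℝ (E d))) p := by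
  have h1 : HasFDerivAt S (fderiv ℝ S p.2) p.2 := (hS.differentiable (by norm_num) p.2).hasFDerivAt
  exact hasFDerivAt_fst.add (h1.comp p hasFDerivAt_snd)

lemma H_hasFDerivAt (hS : ContDiff ℝ 1 S) (hSpos : ∀ z, 0 < S z) (a : ℝ) (p : ℝ × E d)
    (hp : 0 < p.1) (v : ℝ) (w : E d) :
    fderiv ℝ (fun p : ℝ × E d => (p.1 + S p.2) ^ (-a) / a) p (v, w) =
      -a * (p.1 + S p.2) ^ (-a - 1) / a * (v + fderiv ℝ S p.2 w) := by
  have hg : p.1 + S p.2 ≠ 0 := by have := hSpos p.2; positivity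
  have h := ((g_hasFDerivAt hS p).rpow_const (p := -a) (Or.inl hg)).mul_const (a⁻¹)
  have e : (fun p : ℝ × E d => (p.1 + S p.2) ^ (-a) / a) =
      (fun p : ℝ × E d => (p.1 + S p.2) ^ (-a) * a⁻¹) := by
    funext p; rw [div_eq_mul_inv]
  rw [e, h.fderiv]
  simp
  ring

lemma W_hasFDerivAt (hS : ContDiff ℝ 1 S) (hSpos : ∀ z, 0 < S z) (a : ℝ) (p : ℝ × E d)
    (hp : 0 < p.1) (v : ℝ) (w : E d) :
    fderiv ℝ (fun p : ℝ × E d => p.1 * (p.1 + S p.2) ^ (-1 - a)) p (v, w) =
      v * (p.1 + S p.2) ^ (-1 - a) +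
        p.1 * ((-1 - a) * (p.1 + S p.2) ^ (-1 - a - 1) * (v + fderiv ℝ S p.2 w)) := by
  have hg : p.1 + S p.2 ≠ 0 := by have := hSpos p.2; positivity
  have h := (hasFDerivAt_fst (𝕜 := ℝ) (E := ℝ) (F := E d) (p := p)).mul
    ((g_hasFDerivAt hS p).rpow_const (p := -1 - a) (Or.inl hg))
  have h' : HasFDerivAt (fun p : ℝ × E d => p.1 * (p.1 + S p.2) ^ (-1 - a)) _ p := h
  rw [h'.fderiv]
  simp
  ring

end

theorem pf_PR1 : T_PR1 := by
  intro d α M hα hα1
  set c : ℝ := 1 / (4 * (|M| + 1)) with hc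
  have hM0 : 0 ≤ |M| := abs_nonneg M
  have hc0 : 0 < c := by rw [hc]; positivity
  have hcM : c * |M| ≤ 1 / 4 := by
    rw [hc, div_mul_eq_mul_div, div_le_div_iff₀ (by positivity) (by norm_num)]
    linarith
  have hc1 : c ≤ 1 := by
    rw [hc, div_le_one (by positivity)]; linarith
  set C₀ : ℝ := 3 / α + 4 + 2 * c ^ (-(1 + α)) with hC₀
  have hcp : 0 < c ^ (-(1 + α)) := Real.rpow_pos_of_pos hc0 _
  have h3α : 0 < 3 / α := by positivity
  refine ⟨C₀, by positivity, fun r hr hr1 hdr => ?_⟩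
  set q : ℝ := 1 / (1 + α) with hq
  have hq0 : 0 < q := by rw [hq]; positivity
  have hq1 : q ≤ 1 := by rw [hq, div_le_one (by positivity)]; linarith
  set S : E d → ℝ := fun z => c * (r z) ^ q with hSdef
  have hrpos : ∀ z, 0 < r z := fun z => (hr1 z).1
  have hSC : ContDiff ℝ 1 S := by
    rw [hSdef]
    apply contDiff_const.mul
    exact hr.rpow_const_of_ne (fun z => (hrpos z).ne')
  have hSpos : ∀ z, 0 < S z := fun z => by
    have := Real.rpow_pos_of_pos (hrpos z) q
    rw [hSdef]; positivity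
  have hSfd : ∀ z, ‖fderiv ℝ S z‖ ≤ 1 / 4 := by
    intro z
    have h1 : HasFDerivAt r (fderiv ℝ r z) z := (hr.differentiable (by norm_num) z).hasFDerivAt
    have h2 := (h1.rpow_const (p := q) (Or.inl (hrpos z).ne')).const_mul c
    have h3 : fderiv ℝ S z = c • ((q * r z ^ (q - 1)) • fderiv ℝ r z) := h2.fderiv
    rw [h3, norm_smul, norm_smul, Real.norm_eq_abs, Real.norm_eq_abs, abs_of_pos hc0,
      abs_of_nonneg (mul_nonneg hq0.le (Real.rpow_nonneg (hrpos z).le _))]
    have h4 := hdr z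
    have h5 : 0 < r z ^ (q - 1) := Real.rpow_pos_of_pos (hrpos z) _
    have h6 : r z ^ (q - 1) * r z ^ α ≤ 1 := by
      rw [← Real.rpow_add (hrpos z)]
      apply Real.rpow_le_one (hrpos z).le (hr1 z).2
      have : q - 1 + α = α ^ 2 / (1 + α) := by rw [hq]; field_simp; ring
      rw [this]; positivity
    have h7 : M * r z ^ α ≤ |M| * r z ^ α :=
      mul_le_mul_of_nonneg_right (le_abs_self M) (Real.rpow_nonneg (hrpos z).le _)
    calc c * (q * r z ^ (q - 1) * ‖fderiv ℝ r z‖) ≤ c * (q * r z ^ (q - 1) * (|M| * r z ^ α)) := by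
          have := h4.trans h7
          gcongr
      _ = (c * |M|) * (q * (r z ^ (q - 1) * r z ^ α)) := by ring
      _ ≤ (c * |M|) * (1 * 1) := by
          have h8 : 0 ≤ r z ^ (q - 1) * r z ^ α := mul_nonneg h5.le (Real.rpow_nonneg (hrpos z).le _)
          gcongr
      _ ≤ 1 / 4 := by linarith
  have hSsum : ∀ z, ∑ i : Fin d, (fderiv ℝ S z (bv i)) ^ 2 ≤ 1 / 16 := by
    intro z
    refine (sum_sq_le _).trans ?_
    have h1 := hSfd z
    have h2 := norm_nonneg (fderiv ℝ S z)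
    nlinarith
  set H : ℝ × E d → ℝ := fun p => (p.1 + S p.2) ^ (-α) / α with hH
  set W : ℝ × E d → ℝ := fun p => p.1 * (p.1 + S p.2) ^ (-1 - α) with hW
  have hgC : ContDiff ℝ 1 (fun p : ℝ × E d => p.1 + S p.2) :=
    contDiff_fst.add (hSC.comp contDiff_snd)
  have hgpos : ∀ p : ℝ × E d, 0 < p.1 → 0 < p.1 + S p.2 := fun p hp => by
    have := hSpos p.2; linarith
  have hρg : ∀ p : ℝ × E d, 0 < p.1 → p.1 ≤ p.1 + S p.2 := fun p hp => by
    have := hSpos p.2; linarith
  -- powers of g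
  have hpow1 : ∀ p : ℝ × E d, 0 < p.1 → (p.1 + S p.2) ^ (-1 - α) =
      (p.1 + S p.2) ^ (-α) / (p.1 + S p.2) := by
    intro p hp
    rw [show -1 - α = -α - 1 by ring, Real.rpow_sub_one (hgpos p hp).ne']
  have hpow2 : ∀ p : ℝ × E d, 0 < p.1 → (p.1 + S p.2) ^ (-1 - α - 1) =
      (p.1 + S p.2) ^ (-1 - α) / (p.1 + S p.2) := by
    intro p hp
    rw [Real.rpow_sub_one (hgpos p hp).ne']
  have hpow3 : ∀ p : ℝ × E d, (p.1 + S p.2) ^ (-α - 1) = (p.1 + S p.2) ^ (-1 - α) := by
    intro p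
    congr 1; ring
  refine ⟨H, W, ?_, ?_⟩
  · refine
      { H_C1 := ?_
        W_C1 := ?_
        H_pos := ?_
        W_pos := ?_
        W_eq := ?_
        p1 := ?_
        p2 := ?_
        p3 := ?_
        p4 := ?_
        p5 := ?_
        p6 := ?_
        p7 := ?_ }
    · apply ContDiffOn.div_const
      exact hgC.contDiffOn.rpow_const_of_ne (fun p hp => (hgpos p hp).ne')
    · exact contDiff_fst.contDiffOn.mul
        (hgC.contDiffOn.rpow_const_of_ne (fun p hp => (hgpos p hp).ne'))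
    · intro p hp
      have := Real.rpow_pos_of_pos (hgpos p hp) (-α)
      simp only [hH]; positivity
    · intro p hp
      have := Real.rpow_pos_of_pos (hgpos p hp) (-1 - α)
      simp only [hW]; positivity
    · intro p hp
      simp only [hW, hH]
      rw [H_hasFDerivAt hSC hSpos α p hp, hpow3]
      simp
      field_simp
    · intro p hp
      simp only [hW]
      rw [W_hasFDerivAt hSC hSpos α p hp, hpow2 p hp]
      have hg := hgpos p hp
      have hG := Real.rpow_pos_of_pos hg (-1 - α)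
      set G := (p.1 + S p.2) ^ (-1 - α) with hGd
      set g := p.1 + S p.2 with hgd
      have ht : p.1 / g ≤ 1 := by rw [div_le_one hg]; exact hρg p hp
      have ht0 : 0 < p.1 / g := by positivity
      have e : p.1 * (1 * G + p.1 * ((-1 - α) * (G / g) * (1 + fderiv ℝ S p.2 0))) =
          (p.1 * G) * (1 - (1 + α) * (p.1 / g)) := by
        rw [map_zero]
        field_simp
        ring
      rw [e, abs_mul, abs_of_pos (mul_pos hp hG)]
      have h1 : |1 - (1 + α) * (p.1 / g)| ≤ 3 / 2 := by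
        rw [abs_le]
        constructor <;> nlinarith
      calc p.1 * G * |1 - (1 + α) * (p.1 / g)| ≤ p.1 * G * (3 / 2) :=
            mul_le_mul_of_nonneg_left h1 (mul_pos hp hG).le
        _ = _ := by ring
    · intro p hp
      simp only [hW]
      have hg := hgpos p hp
      have hG := Real.rpow_pos_of_pos hg (-1 - α)
      have e : ∀ i : Fin d, fderiv ℝ (fun p : ℝ × E d => p.1 * (p.1 + S p.2) ^ (-1 - α)) p (0, bv i) ^ 2 =
          (p.1 * ((1 + α) * ((p.1 + S p.2) ^ (-1 - α) / (p.1 + S p.2)))) ^ 2 *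
            (fderiv ℝ S p.2 (bv i)) ^ 2 := by
        intro i
        rw [W_hasFDerivAt hSC hSpos α p hp, hpow2 p hp]
        ring
      simp_rw [e]
      rw [← Finset.mul_sum]
      set G := (p.1 + S p.2) ^ (-1 - α) with hGd
      set g := p.1 + S p.2 with hgd
      have hs := hSsum p.2
      have ht : p.1 / g ≤ 1 := by rw [div_le_one hg]; exact hρg p hp
      have ht0 : 0 < p.1 / g := by positivity
      have h0 : 0 ≤ ∑ i : Fin d, (fderiv ℝ S p.2 (bv i)) ^ 2 :=
        Finset.sum_nonneg (fun i _ => sq_nonneg _)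
      have e2 : p.1 ^ 2 * ((p.1 * ((1 + α) * (G / g))) ^ 2 * ∑ i : Fin d, (fderiv ℝ S p.2 (bv i)) ^ 2) =
          (p.1 * G) ^ 2 * (((1 + α) * (p.1 / g)) ^ 2 * ∑ i : Fin d, (fderiv ℝ S p.2 (bv i)) ^ 2) := by
        field_simp
      rw [e2]
      have h1 : ((1 + α) * (p.1 / g)) ^ 2 ≤ 4 := by
        have h2 : (1 + α) * (p.1 / g) ≤ 2 * 1 := mul_le_mul (by linarith) ht ht0.le (by norm_num)
        have h3 : 0 ≤ (1 + α) * (p.1 / g) := by positivity
        nlinarith
      have h2 : ((1 + α) * (p.1 / g)) ^ 2 * ∑ i : Fin d, (fderiv ℝ S p.2 (bv i)) ^ 2 ≤ 4 * (1 / 16) :=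
        mul_le_mul h1 hs h0 (by norm_num)
      have h3 : 0 ≤ (p.1 * G) ^ 2 := sq_nonneg _
      nlinarith
    · intro p hp
      simp only [hW, hH]
      have hg := hgpos p hp
      have hG := Real.rpow_pos_of_pos hg (-α)
      rw [hpow1 p hp]
      set G := (p.1 + S p.2) ^ (-α) with hGd
      set g := p.1 + S p.2 with hgd
      have ht : p.1 / g ≤ 1 := by rw [div_le_one hg]; exact hρg p hp
      have h1 : p.1 * (G / g) ≤ G := by
        have : p.1 * (G / g) = (p.1 / g) * G := by ring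
        rw [this]
        exact mul_le_of_le_one_left hG.le ht
      have h2 : G ≤ G / α := by
        rw [le_div_iff₀ hα]
        nlinarith
      have h3 : 0 ≤ G / α := by positivity
      linarith
    · intro p hp
      simp only [hW, hH]
      have hg := hgpos p hp
      have hG := Real.rpow_pos_of_pos hg (-α)
      have e : ∀ i : Fin d, fderiv ℝ (fun p : ℝ × E d => (p.1 + S p.2) ^ (-α) / α) p (0, bv i) ^ 2 =
          ((p.1 + S p.2) ^ (-α) / (p.1 + S p.2)) ^ 2 * (fderiv ℝ S p.2 (bv i)) ^ 2 := by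
        intro i
        rw [H_hasFDerivAt hSC hSpos α p hp, hpow3, hpow1 p hp]
        field_simp
        ring
      simp_rw [e]
      rw [← Finset.mul_sum, hpow1 p hp]
      set G := (p.1 + S p.2) ^ (-α) with hGd
      set g := p.1 + S p.2 with hgd
      have hs := hSsum p.2
      have ht : p.1 / g ≤ 1 := by rw [div_le_one hg]; exact hρg p hp
      have ht0 : 0 < p.1 / g := by positivity
      have h0 : 0 ≤ ∑ i : Fin d, (fderiv ℝ S p.2 (bv i)) ^ 2 :=
        Finset.sum_nonneg (fun i _ => sq_nonneg _)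
      calc p.1 ^ 2 * ((G / g) ^ 2 * ∑ i : Fin d, (fderiv ℝ S p.2 (bv i)) ^ 2)
          ≤ p.1 ^ 2 * ((G / g) ^ 2 * (1 / 16)) := by gcongr
        _ = (p.1 / g) * ((p.1 / g) * G ^ 2) / 16 := by field_simp
        _ ≤ 1 * ((p.1 / g) * G ^ 2) / 16 := by gcongr
        _ ≤ (1 / α) * ((p.1 / g) * G ^ 2) / 16 := by
            have : 1 ≤ 1 / α := by rw [le_div_iff₀ hα]; linarith
            gcongr
        _ = G / α * (p.1 * (G / g)) / 16 := by field_simp
    · intro p hp hp3
      simp only [hH]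
      have hg := hgpos p hp
      have h1 : (p.1 + S p.2) ^ (-α) ≤ p.1 ^ (-α) :=
        Real.rpow_le_rpow_of_nonpos hp (hρg p hp) (by linarith)
      have h2 : p.1 * p.1 ^ (-α) ≤ 3 := by
        have e : p.1 * p.1 ^ (-α) = p.1 ^ (1 - α) := by
          rw [show (1 - α) = 1 + (-α) by ring, Real.rpow_add hp, Real.rpow_one]
        rw [e]
        calc p.1 ^ (1 - α) ≤ 3 ^ (1 - α) := Real.rpow_le_rpow hp.le hp3 (by linarith)
          _ ≤ 3 ^ (1:ℝ) := Real.rpow_le_rpow_of_exponent_le (by norm_num) (by linarith)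
          _ = 3 := Real.rpow_one _
      have h3 : p.1 * (p.1 + S p.2) ^ (-α) ≤ 3 :=
        (mul_le_mul_of_nonneg_left h1 hp.le).trans h2
      calc p.1 * ((p.1 + S p.2) ^ (-α) / α) = (p.1 * (p.1 + S p.2) ^ (-α)) / α := by ring
        _ ≤ 3 / α := div_le_div_of_nonneg_right h3 hα.le
        _ ≤ C₀ := by rw [hC₀]; linarith
    · intro p hp hp2
      simp only [hW]
      have hg := hgpos p hp
      have h1 : (p.1 + S p.2) ^ (-1 - α) ≤ p.1 ^ (-1 - α) :=
        Real.rpow_le_rpow_of_nonpos hp (hρg p hp) (by linarith)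
      have h2 : p.1 ^ 2 * (p.1 * p.1 ^ (-1 - α)) ≤ 4 := by
        have e : p.1 ^ 2 * (p.1 * p.1 ^ (-1 - α)) = p.1 ^ (2 - α) := by
          rw [show (2 - α) = (2:ℕ) + 1 + (-1 - α) by push_cast; ring, Real.rpow_add hp,
            Real.rpow_add_one hp.ne', Real.rpow_natCast]
          ring
        rw [e]
        calc p.1 ^ (2 - α) ≤ 2 ^ (2 - α) := Real.rpow_le_rpow hp.le hp2 (by linarith)
          _ ≤ 2 ^ (2:ℝ) := Real.rpow_le_rpow_of_exponent_le (by norm_num) (by linarith)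
          _ = 4 := by norm_num
      have h3 : p.1 ^ 2 * (p.1 * (p.1 + S p.2) ^ (-1 - α)) ≤ p.1 ^ 2 * (p.1 * p.1 ^ (-1 - α)) := by
        gcongr
      have : 4 ≤ C₀ := by rw [hC₀]; linarith
      linarith
    · intro p hp _ _ hp2
      simp only [hW]
      have hg := hgpos p hp
      have hS := hSpos p.2
      have h1 : (p.1 + S p.2) ^ (-1 - α) ≤ (S p.2) ^ (-1 - α) :=
        Real.rpow_le_rpow_of_nonpos hS (by linarith) (by linarith)
      have h2 : (S p.2) ^ (-1 - α) = c ^ (-(1 + α)) * (r p.2)⁻¹ := by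
        simp only [hSdef]
        rw [Real.mul_rpow hc0.le (Real.rpow_nonneg (hrpos _).le _), ← Real.rpow_mul (hrpos _).le]
        have e1 : q * (-1 - α) = -1 := by rw [hq]; field_simp; ring
        rw [e1, Real.rpow_neg_one]
        congr 2
        ring
      have hr0 := hrpos p.2
      calc p.1 * (p.1 + S p.2) ^ (-1 - α) ≤ p.1 * (c ^ (-(1 + α)) * (r p.2)⁻¹) := by
            rw [← h2]; gcongr
        _ ≤ (2 * r p.2) * (c ^ (-(1 + α)) * (r p.2)⁻¹) := by gcongr
        _ = 2 * c ^ (-(1 + α)) := by field_simp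
        _ ≤ C₀ := by rw [hC₀]; linarith
  · intro z s hs1 hs2
    have hr0 := hrpos z
    have hs0 : 0 < s := by linarith
    have hS := hSpos z
    simp only [hW]
    have hg : 0 < s + S z := by linarith
    have e1 : (s ^ 2 * (s * (s + S z) ^ (-1 - α)))⁻¹ = (s ^ 3)⁻¹ * (s + S z) ^ (1 + α) := by
      rw [show -1 - α = -(1 + α) by ring, Real.rpow_neg hg.le]
      have := Real.rpow_pos_of_pos hg (1 + α)
      field_simp
    rw [e1]
    have h1 : (s + S z) ^ (1 + α) ≤ 4 * (s ^ (1 + α) + r z) := by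
      have hm : s + S z ≤ 2 * max s (S z) := by
        have := le_max_left s (S z)
        have := le_max_right s (S z)
        linarith
      have hm0 : 0 < max s (S z) := lt_max_of_lt_left hs0
      have h2 : (s + S z) ^ (1 + α) ≤ (2 * max s (S z)) ^ (1 + α) :=
        Real.rpow_le_rpow hg.le hm (by linarith)
      rw [Real.mul_rpow (by norm_num) hm0.le] at h2
      have h3 : (2:ℝ) ^ (1 + α) ≤ 4 := by
        calc (2:ℝ) ^ (1 + α) ≤ 2 ^ (2:ℝ) := Real.rpow_le_rpow_of_exponent_le (by norm_num) (by linarith)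
          _ = 4 := by norm_num
      have h4 : (S z) ^ (1 + α) ≤ r z := by
        simp only [hSdef]
        rw [Real.mul_rpow hc0.le (Real.rpow_nonneg hr0.le _), ← Real.rpow_mul hr0.le]
        have e1 : q * (1 + α) = 1 := by rw [hq]; field_simp
        rw [e1, Real.rpow_one]
        have : c ^ (1 + α) ≤ 1 := Real.rpow_le_one hc0.le hc1 (by linarith)
        nlinarith
      have h5 : (max s (S z)) ^ (1 + α) ≤ s ^ (1 + α) + r z := by
        have hsp : 0 ≤ s ^ (1 + α) := Real.rpow_nonneg hs0.le _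
        rcases le_total s (S z) with h | h
        · rw [max_eq_right h]; linarith
        · rw [max_eq_left h]; linarith
      have h6 : 0 ≤ (max s (S z)) ^ (1 + α) := Real.rpow_nonneg hm0.le _
      calc (s + S z) ^ (1 + α) ≤ 2 ^ (1 + α) * (max s (S z)) ^ (1 + α) := h2
        _ ≤ 4 * (s ^ (1 + α) + r z) := mul_le_mul h3 h5 h6 (by norm_num)
    have h2 : 4 ≤ C₀ := by rw [hC₀]; linarith
    have h3 : 0 < (s ^ 3)⁻¹ := by positivity
    have h4 : 0 ≤ s ^ (1 + α) + r z := by
      have := Real.rpow_nonneg hs0.le (1 + α)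
      linarith
    calc (s ^ 3)⁻¹ * (s + S z) ^ (1 + α) ≤ (s ^ 3)⁻¹ * (4 * (s ^ (1 + α) + r z)) := by gcongr
      _ ≤ (s ^ 3)⁻¹ * (C₀ * (s ^ (1 + α) + r z)) := by gcongr
      _ = _ := by ring

end Pool.Agent.H96.SN
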